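import Pool.Agent.H7.LB.Main
import Pool.Agent.H23.LB.ToField
import Pool.Agent.H90.LB.NumW

/-!
# LB: the final assembly

`W` is a finite set of primes outside of which different conjugates have different `p`-th powers.
-/

set_option autoImplicit false

namespace H82.LB

open H25.Arith H91.LK Polynomial

/-- `1 ≤ sup |f|` -/
theorem log_sup (f : ℤ[X]) (B : ℝ) (h0 : 0 < lm f)
    (hB : ∀ z : ℂ, ‖z‖ = 1 → ‖(f.map (Int.castRingHom ℂ)).eval z‖ ≤ B) : 1 ≤ B := by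
  by_contra hlt
  push Not at hlt
  have h1 : lm f ≤ 0 := by
    unfold lm
    rw [logMahlerMeasure_def]
    refine Real.circleAverage_mono_on_of_le_circle ?_ ?_
    · have h3 := (analyticOnNhd_id (𝕜 := ℂ) (s := Metric.sphere (0 : ℂ) |1|)).aeval_polynomial
        (f.map (Int.castRingHom ℂ))
      exact h3.meromorphicOn.circleIntegrable_log_norm
    · intro z hz
      have hz1 : ‖z‖ = 1 := by
        rw [mem_sphere_iff_norm, sub_zero, abs_one] at hz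
        exact hz
      have h2 := hB z hz1
      exact Real.log_nonpos (norm_nonneg _) (h2.trans hlt.le)
  linarith

/-- **The core of the assembly**: a bound for the truncated energy of the conjugates gives a lower
bound for the Mahler measure. -/
theorem assembly_core (C : ℝ) (hC : 1 ≤ C) : ∃ c : ℝ, 0 < c ∧ ∀ (K : Type) [Field K]
    [NumberField K] [IsGalois ℚ K] (σ : K →+* ℂ) (α : K) (W : Finset ℕ) (L : ℝ),
    IsIntegral ℤ α → 1 ≤ (orb α).card → 0 ≤ L →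
    0 < ∑ x ∈ orb α, Real.posLog ‖σ x‖ → ∑ x ∈ orb α, Real.posLog ‖σ x‖ ≤ 1 →
    (∀ p : ℕ, p.Prime → p ∉ W → ∀ x ∈ orb α, ∀ y ∈ orb α, x ^ p = y ^ p → x = y) →
    (∀ p q : ℕ, 0 < p → 0 < q → p ≠ q → ∀ x ∈ orb α, ∀ y ∈ orb α, x ^ p ≠ y ^ q) →
    (∀ ε : ℝ, 0 < ε → ε ≤ 1 / 2 → ∃ r : K → ℝ, (∀ x ∈ orb α, 0 ≤ r x) ∧
      (∀ x ∈ orb α, r x ≤ 1) ∧ (∀ x ∈ orb α, ‖(r x : ℂ) * rf (σ x)‖ < 1) ∧
      ∑ x ∈ orb α, (1 - r x) ≤ C * ε * (1 + L) ∧
      ∑ x ∈ orb α, ∑ y ∈ orb α, kr (r x * rf (σ x)) (r y * rf (σ y)) ≤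
        C * (orb α).card * (1 + L) *
          (Real.log (1 / ε) + 2 * ∑ x ∈ orb α, Real.posLog ‖σ x‖)) →
    c / ((1 + L) * ((1 + L) ^ 2 + W.card)) ≤ ∑ x ∈ orb α, Real.posLog ‖σ x‖ := by
  obtain ⟨c, hc, hnum⟩ := H90.LB.numbersW C hC
  refine ⟨c, hc, ?_⟩
  intro K _ _ _ σ α W L hα hcard hL h0 h1 hinj hne hen
  refine hnum L _ hL h0 h1 W ?_
  intro ε hε hε2
  have hd1 : (1 : ℝ) ≤ (orb α).card := by exact_mod_cast hcard
  have hd0 : (0 : ℝ) < (orb α).card := by linarith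
  obtain ⟨r, hr0, hr1, hrlt, hη, hE⟩ := hen ε hε hε2
  refine ⟨(∑ x ∈ orb α, ∑ y ∈ orb α, kr (r x * rf (σ x)) (r y * rf (σ y))) /
    (orb α).card, ∑ x ∈ orb α, (1 - r x), hη, ?_, ?_⟩
  · rw [div_le_iff₀ hd0]
    refine hE.trans (le_of_eq ?_)
    ring
  · intro T hT Q hQ
    have h3 := main_ineqQ σ α hα hne T hT Q (fun p hp => (hQ p hp).1)
      (fun p hp => hinj p (hQ p hp).1 (hQ p hp).2) r hr0 hr1 hrlt
    refine le_of_mul_le_mul_right ?_ hd0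
    have e1 : (T ^ 2 + (Q.card : ℝ)) * ((∑ x ∈ orb α, ∑ y ∈ orb α,
        kr (r x * rf (σ x)) (r y * rf (σ y))) / (orb α).card) * (orb α).card =
        (T ^ 2 + (Q.card : ℝ)) * ∑ x ∈ orb α, ∑ y ∈ orb α,
          kr (r x * rf (σ x)) (r y * rf (σ y)) := by
      field_simp
    rw [add_mul, e1]
    linarith

end H82.LB
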