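import Pool.Agent.H7.LB.Core
import Pool.Agent.H82.LB.D6
import Pool.Agent.H97.LB.Bad

/-!
# LB: the theorem for the maximum on the unit circle
-/

set_option autoImplicit false

namespace H82.LB

open H25.Arith H91.LK Polynomial

/-- the energy bound in the form of `assembly_core` -/
theorem energy_orb {C : ℝ} (hC : 1 ≤ C) (hen : ∀ {ι : Type} [Fintype ι] [Nonempty ι] (z : ι → ℂ)
    (L ε : ℝ), (∀ i, ‖z i‖ ≤ 1) → 0 ≤ L → 0 < ε → ε ≤ 1 / 2 →
    (∀ w : ℂ, ‖w‖ = 1 → ∏ i, ‖1 - w * starRingEnd ℂ (z i)‖ ≤ Real.exp L) →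
    ∃ r : ι → ℝ, (∀ i, 1 / 2 ≤ r i) ∧ (∀ i, r i ≤ 1) ∧ (∀ i, ‖(r i : ℂ) * z i‖ < 1) ∧
      ∑ i, (1 - r i) ≤ C * ε * (1 + L) ∧
      ∑ i, ∑ j, kr (r i * z i) (r j * z j) ≤
        C * Fintype.card ι * (1 + L) * (Real.log (1 / ε) + ∑ i, (1 - ‖z i‖)))
    {K : Type} [Field K] [NumberField K] (σ : K →+* ℂ) (α : K) {L m : ℝ} (hL : 0 ≤ L)
    (hcard : 1 ≤ (orb α).card) (hrf : ∑ x ∈ orb α, (1 - ‖rf (σ x)‖) ≤ 2 * m)
    (hprod : ∀ w : ℂ, ‖w‖ = 1 →
      ∏ x ∈ orb α, ‖1 - w * starRingEnd ℂ (rf (σ x))‖ ≤ Real.exp L)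
    {ε : ℝ} (hε : 0 < ε) (hε2 : ε ≤ 1 / 2) :
    ∃ r : K → ℝ, (∀ x ∈ orb α, 0 ≤ r x) ∧
      (∀ x ∈ orb α, r x ≤ 1) ∧ (∀ x ∈ orb α, ‖(r x : ℂ) * rf (σ x)‖ < 1) ∧
      ∑ x ∈ orb α, (1 - r x) ≤ C * ε * (1 + L) ∧
      ∑ x ∈ orb α, ∑ y ∈ orb α, kr (r x * rf (σ x)) (r y * rf (σ y)) ≤
        C * (orb α).card * (1 + L) * (Real.log (1 / ε) + 2 * m) := by
  have hnonempty : Nonempty {x // x ∈ orb α} := by
    obtain ⟨x, hx⟩ := Finset.card_pos.1 (by omega : 0 < (orb α).card)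
    exact ⟨⟨x, hx⟩⟩
  obtain ⟨r, hr12, hr1, hrlt, hη, hE⟩ := hen (ι := {x // x ∈ orb α})
    (fun x => rf (σ x)) L ε (fun x => rf_norm_le _) hL hε hε2 (by
      intro w hw
      have := hprod w hw
      rw [← Finset.prod_coe_sort] at this
      exact this)
  classical
  let r' : K → ℝ := fun x => if h : x ∈ orb α then r ⟨x, h⟩ else 1
  have hr' : ∀ x : {x // x ∈ orb α}, r' x = r x := fun x => by
    simp only [r', x.2, dite_true]
  have s1 : ∑ x ∈ orb α, (1 - r' x) = ∑ x : {x // x ∈ orb α}, (1 - r x) := by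
    rw [← Finset.sum_coe_sort]
    exact Finset.sum_congr rfl fun x _ => by rw [hr']
  have s2 : ∑ x ∈ orb α, ∑ y ∈ orb α, kr (r' x * rf (σ x)) (r' y * rf (σ y)) =
      ∑ x : {x // x ∈ orb α}, ∑ y : {x // x ∈ orb α},
        kr (r x * rf (σ x)) (r y * rf (σ y)) := by
    rw [← Finset.sum_coe_sort]
    refine Finset.sum_congr rfl fun x _ => ?_
    rw [← Finset.sum_coe_sort]
    exact Finset.sum_congr rfl fun y _ => by rw [hr', hr']
  have s3 : ∑ x : {x // x ∈ orb α}, (1 - ‖rf (σ (x : K))‖) ≤ 2 * m := by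
    rw [Finset.sum_coe_sort (orb α) (fun x => 1 - ‖rf (σ x)‖)]
    exact hrf
  have hcd : (Fintype.card {x // x ∈ orb α} : ℝ) = (orb α).card := by
    rw [Fintype.card_coe]
  refine ⟨r', ?_, ?_, ?_, ?_, ?_⟩
  · intro x hx
    have h6 := hr12 ⟨x, hx⟩
    rw [← hr' ⟨x, hx⟩] at h6
    exact le_trans (by norm_num) h6
  · intro x hx
    have h6 := hr1 ⟨x, hx⟩
    rw [← hr' ⟨x, hx⟩] at h6
    exact h6
  · intro x hx
    have h6 := hrlt ⟨x, hx⟩
    rw [← hr' ⟨x, hx⟩] at h6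
    exact h6
  · rw [s1]
    exact hη
  · rw [s2]
    refine hE.trans ?_
    rw [hcd]
    have h3 : Real.log (1 / ε) + ∑ x : {x // x ∈ orb α}, (1 - ‖rf (σ (x : K))‖) ≤
        Real.log (1 / ε) + 2 * m := by linarith
    have h4 : 0 ≤ C * (orb α).card * (1 + L) := by positivity
    exact mul_le_mul_of_nonneg_left h3 h4

/-- The general form: `w` is a bound for the number of exceptional primes, which is needed only
in the number field. -/
theorem length_bound_gen : ∃ c : ℝ, 0 < c ∧ ∀ (f : ℤ[X]) (B w : ℝ), Irreducible f →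
    0 < lm f → 0 ≤ w →
    (∀ z : ℂ, ‖z‖ = 1 → ‖(f.map (Int.castRingHom ℂ)).eval z‖ ≤ B) →
    (∀ (K : Type) [Field K] [NumberField K] [IsGalois ℚ K] (σ : K →+* ℂ) (α : K),
      IsIntegral ℤ α → Associated (minpoly ℤ α) f → (orb α).card = f.natDegree →
      ∑ x ∈ orb α, Real.posLog ‖σ x‖ = lm f →
      (∀ m : ℕ, (∀ u v : ℂ, (f.map (Int.castRingHom ℂ)).eval u = 0 →
        (f.map (Int.castRingHom ℂ)).eval v = 0 → u ≠ v → u ^ m ≠ v ^ m) →
        ∀ x ∈ orb α, ∀ y ∈ orb α, x ^ m = y ^ m → x = y) →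
      ∃ W : Finset ℕ, (W.card : ℝ) ≤ w ∧
        ∀ p : ℕ, p.Prime → p ∉ W → ∀ x ∈ orb α, ∀ y ∈ orb α, x ^ p = y ^ p → x = y) →
    c / ((1 + Real.log B) * ((1 + Real.log B) ^ 2 + w)) ≤ lm f := by
  obtain ⟨C, hC, hen⟩ := energy_lemma
  obtain ⟨c, hc, hcore⟩ := assembly_core C hC
  refine ⟨min c (Real.log 2), lt_min hc (Real.log_pos (by norm_num)), ?_⟩
  intro f B w hf h0 hw hB hW
  have hB1 : 1 ≤ B := log_sup f B h0 hB
  have hB0 : 0 < B := by linarith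
  have hL : 0 ≤ Real.log B := Real.log_nonneg hB1
  have hsq : (1 : ℝ) ≤ (1 + Real.log B) ^ 2 := one_le_pow₀ (by linarith)
  have hpow : (1 : ℝ) ≤ (1 + Real.log B) * ((1 + Real.log B) ^ 2 + w) := by nlinarith
  rcases le_or_gt (Real.log 2) (lm f) with h2 | h2
  · calc min c (Real.log 2) / ((1 + Real.log B) * ((1 + Real.log B) ^ 2 + w)) ≤
          min c (Real.log 2) :=
          div_le_self (le_min hc.le (Real.log_nonneg (by norm_num))) hpow
      _ ≤ Real.log 2 := min_le_right _ _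
      _ ≤ lm f := h2
  · have hlog2 : Real.log 2 ≤ 1 := by
      have := Real.log_two_lt_d9
      linarith
    obtain ⟨K, iF, iN, iG, σ, α, hα, hass, hcard, hdeg, hm, hrf, hinj, hne, hprod⟩ :=
      H23.LB.to_field_full f hf h0 h2 B hB
    obtain ⟨W, hWw, hWp⟩ := hW K σ α hα hass hdeg hm hinj
    have key := hcore K σ α W (Real.log B) hα hcard hL (by rw [hm]; exact h0)
      (by rw [hm]; linarith) hWp hne (by
        intro ε hε hε2
        rw [hm]
        exact energy_orb hC hen σ α hL hcard hrf (by rw [Real.exp_log hB0]; exact hprod) hε hε2)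
    rw [hm] at key
    calc min c (Real.log 2) / ((1 + Real.log B) * ((1 + Real.log B) ^ 2 + w)) ≤
          c / ((1 + Real.log B) * ((1 + Real.log B) ^ 2 + w)) := by
          apply div_le_div_of_nonneg_right (min_le_left _ _)
          positivity
      _ ≤ c / ((1 + Real.log B) * ((1 + Real.log B) ^ 2 + W.card)) := by
          apply div_le_div_of_nonneg_left hc.le (by positivity)
          apply mul_le_mul_of_nonneg_left _ (by linarith)
          linarith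
      _ ≤ lm f := key

/-- **Theorem.** A lower bound for the Mahler measure in terms of the maximum on the unit circle and
the number of exceptional primes. -/
theorem length_bound_W : ∃ c : ℝ, 0 < c ∧ ∀ (f : ℤ[X]) (B : ℝ) (W : Finset ℕ), Irreducible f →
    0 < lm f →
    (∀ p : ℕ, p.Prime → p ∉ W → ∀ x y : ℂ, (f.map (Int.castRingHom ℂ)).eval x = 0 →
      (f.map (Int.castRingHom ℂ)).eval y = 0 → x ≠ y → x ^ p ≠ y ^ p) →
    (∀ z : ℂ, ‖z‖ = 1 → ‖(f.map (Int.castRingHom ℂ)).eval z‖ ≤ B) →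
    c / ((1 + Real.log B) * ((1 + Real.log B) ^ 2 + W.card)) ≤ lm f := by
  obtain ⟨c, hc, h⟩ := length_bound_gen
  refine ⟨c, hc, fun f B W hf h0 hnd hB => ?_⟩
  refine h f B W.card hf h0 (Nat.cast_nonneg _) hB ?_
  intro K _ _ _ σ α hα _ hdeg hm hinj
  exact ⟨W, le_rfl, fun p hp hpW => hinj p (hnd p hp hpW)⟩

/-- **Theorem** (nondegenerate polynomials). -/
theorem length_bound : ∃ c : ℝ, 0 < c ∧ ∀ (f : ℤ[X]) (B : ℝ), Irreducible f → 0 < lm f →
    (∀ x y : ℂ, (f.map (Int.castRingHom ℂ)).eval x = 0 →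
      (f.map (Int.castRingHom ℂ)).eval y = 0 → x ≠ y → ∀ n : ℕ, 0 < n → x ^ n ≠ y ^ n) →
    (∀ z : ℂ, ‖z‖ = 1 → ‖(f.map (Int.castRingHom ℂ)).eval z‖ ≤ B) →
    c / (1 + Real.log B) ^ 3 ≤ lm f := by
  obtain ⟨c, hc, h⟩ := length_bound_W
  refine ⟨c, hc, fun f B hf h0 hnd hB => ?_⟩
  have h1 := h f B ∅ hf h0 (fun p hp _ x y hx hy hxy => hnd x y hx hy hxy p hp.pos) hB
  rw [Finset.card_empty, Nat.cast_zero, add_zero] at h1
  refine le_trans (le_of_eq ?_) h1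
  congr 1
  ring

/-- **Theorem** (all irreducible polynomials). -/
theorem length_bound_all : ∃ c : ℝ, 0 < c ∧ ∀ (f : ℤ[X]) (B : ℝ), Irreducible f → 0 < lm f →
    (∀ z : ℂ, ‖z‖ = 1 → ‖(f.map (Int.castRingHom ℂ)).eval z‖ ≤ B) →
    c / ((1 + Real.log B) * ((1 + Real.log B) ^ 2 + Real.log f.natDegree)) ≤ lm f := by
  obtain ⟨c, hc, h⟩ := length_bound_gen
  refine ⟨c / 2, by positivity, fun f B hf h0 hB => ?_⟩
  have hB1 : 1 ≤ B := log_sup f B h0 hB
  have hL : 0 ≤ Real.log B := Real.log_nonneg hB1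
  have hlog2 : (1 : ℝ) / 2 ≤ Real.log 2 := by
    have := Real.log_two_gt_d9
    linarith
  have hlogd : 0 ≤ Real.log f.natDegree := Real.log_natCast_nonneg _
  have h1 := h f B (Real.log f.natDegree / Real.log 2) hf h0 (by positivity) hB (by
    intro K _ _ _ σ α hα _ hdeg hm hinj
    obtain ⟨W, -, hW2, -, hW4⟩ := H97.LB.exists_bad α
    exact ⟨W, by rw [← hdeg]; exact hW4, hW2⟩)
  refine le_trans ?_ h1
  have hsq : (1 : ℝ) ≤ (1 + Real.log B) ^ 2 := one_le_pow₀ (by linarith)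
  rw [div_div]
  apply div_le_div_of_nonneg_left hc.le (by positivity)
  have h2 : Real.log f.natDegree / Real.log 2 ≤ 2 * Real.log f.natDegree := by
    rw [div_le_iff₀ (by linarith)]
    nlinarith
  have h3 : (1 + Real.log B) ^ 2 + Real.log f.natDegree / Real.log 2 ≤
      2 * ((1 + Real.log B) ^ 2 + Real.log f.natDegree) := by linarith
  calc (1 + Real.log B) * ((1 + Real.log B) ^ 2 + Real.log f.natDegree / Real.log 2) ≤
        (1 + Real.log B) * (2 * ((1 + Real.log B) ^ 2 + Real.log f.natDegree)) :=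
        mul_le_mul_of_nonneg_left h3 (by linarith)
    _ = 2 * ((1 + Real.log B) * ((1 + Real.log B) ^ 2 + Real.log f.natDegree)) := by ring

end H82.LB
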