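import Pool.Agent.H15.LB.AB
import Pool.Agent.H91.LK.B4

/-!
# LB, block C: the main inequality

`K(a, b) = - log |1 - a \bar b|` is positive definite on the open disc; it is applied to `T` times the
truncated conjugates and once their `p`-th powers, `p ∈ Q`.
-/

set_option autoImplicit false

namespace H82.LB

open H25.Arith H25.Arith.Disc H91.LK Polynomial

theorem one_sub_pow_le' {r : ℝ} (h0 : 0 ≤ r) (p : ℕ) : 1 - r ^ p ≤ p * (1 - r) := by
  have h := one_add_mul_le_pow (a := r - 1) (by linarith) p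
  have h2 : 1 + (r - 1) = r := by ring
  rw [h2] at h
  linarith

/-- the bound for one pair -/
theorem kr_pow_le {a b : ℂ} {r s : ℝ} (hr0 : 0 ≤ r) (hr1 : r ≤ 1) (hs0 : 0 ≤ s) (hs1 : s ≤ 1)
    (p q : ℕ) (hab : a ^ p ≠ b ^ q) :
    kr ((r * rf a) ^ p) ((s * rf b) ^ q) ≤
      - Real.log ‖a ^ p - b ^ q‖ + p * (Real.posLog ‖a‖ + (1 - r)) +
        q * (Real.posLog ‖b‖ + (1 - s)) := by
  have h := kr_le hab (pow_nonneg hr0 p) (pow_le_one₀ hr0 hr1) (pow_nonneg hs0 q)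
    (pow_le_one₀ hs0 hs1)
  rw [rf_pow, rf_pow, posLog_pow', posLog_pow'] at h
  have e1 : ((r : ℂ) * rf a) ^ p = ((r ^ p : ℝ) : ℂ) * rf a ^ p := by
    rw [mul_pow, Complex.ofReal_pow]
  have e2 : ((s : ℂ) * rf b) ^ q = ((s ^ q : ℝ) : ℂ) * rf b ^ q := by
    rw [mul_pow, Complex.ofReal_pow]
  rw [e1, e2]
  have h3 := one_sub_pow_le' hr0 p
  have h4 := one_sub_pow_le' hs0 q
  linarith

/-- the product over the nontrivial roots of unity -/
theorem geom_prod {p : ℕ} (hp : 0 < p) (a b : ℂ) :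
    ∏ k ∈ Finset.Ico 1 p, ‖Complex.exp (2 * Real.pi * Complex.I * k / p) * a - b‖ =
      ‖∑ i ∈ Finset.range p, b ^ i * a ^ (p - 1 - i)‖ := by
  have : NeZero p := ⟨hp.ne'⟩
  set ζ : ℂ := Complex.exp (2 * Real.pi * Complex.I / p) with hζdef
  have hζ : IsPrimitiveRoot ζ p := Complex.isPrimitiveRoot_exp p hp.ne'
  have hk : ∀ k : ℕ, Complex.exp (2 * Real.pi * Complex.I * k / p) = ζ ^ k := by
    intro k
    rw [hζdef, ← Complex.exp_nat_mul]
    congr 1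
    ring
  have hset : nthRootsFinset p (1 : ℂ) = (Finset.range p).image (fun k => ζ ^ k) := by
    ext w
    rw [mem_nthRootsFinset hp, Finset.mem_image]
    constructor
    · intro hw
      obtain ⟨i, hi, hi2⟩ := hζ.eq_pow_of_pow_eq_one hw
      exact ⟨i, Finset.mem_range.2 hi, hi2⟩
    · rintro ⟨i, _, rfl⟩
      rw [← pow_mul, mul_comm, pow_mul, hζ.pow_eq_one, one_pow]
  have hprod : ∀ t : ℂ, t ^ p - a ^ p = ∏ k ∈ Finset.range p, (t - ζ ^ k * a) := by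
    intro t
    rw [hζ.pow_sub_pow_eq_prod_sub_mul t a hp, hset, Finset.prod_image]
    intro i hi j hj hij
    exact hζ.pow_inj (Finset.mem_range.1 hi) (Finset.mem_range.1 hj) hij
  have hpoly : (X : ℂ[X]) ^ p - (C a) ^ p = ∏ k ∈ Finset.range p, (X - C (ζ ^ k * a)) := by
    apply Polynomial.funext
    intro t
    rw [eval_prod]
    simp only [eval_sub, eval_pow, eval_X, eval_C]
    exact hprod t
  have hfac : (∑ i ∈ Finset.range p, (X : ℂ[X]) ^ i * (C a) ^ (p - 1 - i)) * (X - C a) =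
      (∏ k ∈ Finset.Ico 1 p, (X - C (ζ ^ k * a))) * (X - C a) := by
    rw [Commute.geom_sum₂_mul (Commute.all _ _), hpoly, Finset.range_eq_Ico,
      Finset.prod_eq_prod_Ico_succ_bot hp]
    simp only [pow_zero, one_mul, zero_add]
    ring
  have hcan := mul_right_cancel₀ (X_sub_C_ne_zero a) hfac
  have hev := congrArg (Polynomial.eval b) hcan
  rw [eval_finsetSum, eval_prod] at hev
  simp only [eval_mul, eval_pow, eval_X, eval_C, eval_sub] at hev
  rw [hev, norm_prod]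
  refine Finset.prod_congr rfl fun k _ => ?_
  rw [hk, norm_sub_rev]

variable {K : Type} [Field K] [NumberField K] [IsGalois ℚ K]

/-- the sum of the bounds of the pairs -/
theorem sum_pairs (α : K) (L : K → K → ℝ) (u : K → ℝ) (p q : ℝ) :
    ∑ x ∈ orb α, ∑ y ∈ orb α, (- L x y + p * u x + q * u y) =
      - ∑ x ∈ orb α, ∑ y ∈ orb α, L x y + (p + q) * ((orb α).card * ∑ x ∈ orb α, u x) := by
  simp only [Finset.sum_add_distrib, Finset.sum_neg_distrib, Finset.sum_const, nsmul_eq_mul,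
    ← Finset.mul_sum]
  ring

theorem cross_le (σ : K →+* ℂ) (α : K) (r : K → ℝ)
    (hr0 : ∀ x ∈ orb α, 0 ≤ r x) (hr1 : ∀ x ∈ orb α, r x ≤ 1) (p q : ℕ)
    (h : ∀ x ∈ orb α, ∀ y ∈ orb α, x ^ p ≠ y ^ q) :
    ∑ x ∈ orb α, ∑ y ∈ orb α, kr ((r x * rf (σ x)) ^ p) ((r y * rf (σ y)) ^ q) ≤
      - ∑ x ∈ orb α, ∑ y ∈ orb α, Real.log ‖σ x ^ p - σ y ^ q‖ +
        ((p : ℝ) + q) * ((orb α).card *
          ∑ x ∈ orb α, (Real.posLog ‖σ x‖ + (1 - r x))) := by
  rw [← sum_pairs α (fun x y => Real.log ‖σ x ^ p - σ y ^ q‖)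
    (fun x => Real.posLog ‖σ x‖ + (1 - r x))]
  refine Finset.sum_le_sum fun x hx => Finset.sum_le_sum fun y hy => ?_
  refine kr_pow_le (hr0 x hx) (hr1 x hx) (hr0 y hy) (hr1 y hy) p q ?_
  rw [← map_pow, ← map_pow]
  exact fun h3 => h x hx y hy (σ.injective h3)

/-- the nontrivial factor of `x ^ p - y ^ p` -/
def gs (p : ℕ) (x y : K) : K := ∑ i ∈ Finset.range p, y ^ i * x ^ (p - 1 - i)

theorem gs_mul (p : ℕ) (x y : K) : gs p x y * (y - x) = y ^ p - x ^ p := by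
  unfold gs
  exact Commute.geom_sum₂_mul (Commute.all _ _) p

theorem gs_ne (α : K) {p : ℕ} (hp : 0 < p)
    (hinj : ∀ x ∈ orb α, ∀ y ∈ orb α, x ^ p = y ^ p → x = y) (h0 : ∀ x ∈ orb α, x ≠ 0)
    (x : K) (hx : x ∈ orb α) (y : K) (hy : y ∈ orb α) : gs p x y ≠ 0 := by
  by_cases hxy : x = y
  · subst hxy
    unfold gs
    have h1 : ∀ i ∈ Finset.range p, x ^ i * x ^ (p - 1 - i) = x ^ (p - 1) := by
      intro i hi
      rw [← pow_add]
      congr 1
      have := Finset.mem_range.1 hi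
      omega
    rw [Finset.sum_congr rfl h1, Finset.sum_const, Finset.card_range, nsmul_eq_mul]
    exact mul_ne_zero (Nat.cast_ne_zero.2 hp.ne') (pow_ne_zero _ (h0 x hx))
  · intro h
    have h1 := gs_mul p x y
    rw [h, zero_mul] at h1
    exact hxy (hinj x hx y hy (sub_eq_zero.1 h1.symm).symm)

theorem gs_log (σ : K →+* ℂ) (α : K) (hα : IsIntegral ℤ α) {p : ℕ} (hp : 0 < p)
    (hinj : ∀ x ∈ orb α, ∀ y ∈ orb α, x ^ p = y ^ p → x = y) (h0 : ∀ x ∈ orb α, x ≠ 0) :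
    0 ≤ ∑ x ∈ orb α, ∑ y ∈ orb α, Real.log ‖σ (gs p x y)‖ := by
  refine log_pairs_nonneg σ α (gs p) ?_ ?_ (gs_ne α hp hinj h0)
  · intro x hx y hy
    unfold gs
    exact IsIntegral.sum _ fun i _ => ((orb_integral hα hy).pow i).mul ((orb_integral hα hx).pow _)
  · intro g x y
    unfold gs
    simp

/-- the self energy of the `p`-th powers, one pair -/
theorem self_pair (σ : K →+* ℂ) (α : K) {p : ℕ} (hp : 0 < p)
    (hinj : ∀ x ∈ orb α, ∀ y ∈ orb α, x ^ p = y ^ p → x = y) (h0 : ∀ x ∈ orb α, x ≠ 0)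
    (r : K → ℝ) (hr0 : ∀ x ∈ orb α, 0 ≤ r x) (hr1 : ∀ x ∈ orb α, r x ≤ 1)
    (hr : ∀ x ∈ orb α, ‖(r x : ℂ) * rf (σ x)‖ < 1)
    (x : K) (hx : x ∈ orb α) (y : K) (hy : y ∈ orb α) :
    kr ((r x * rf (σ x)) ^ p) ((r y * rf (σ y)) ^ p) ≤
      kr (r x * rf (σ x)) (r y * rf (σ y)) +
      (- Real.log ‖σ (gs p x y)‖ + p * (Real.posLog ‖σ x‖ + (1 - r x)) +
        p * (Real.posLog ‖σ y‖ + (1 - r y))) := by
  rw [kr_pow hp (hr x hx) (hr y hy), Finset.range_eq_Ico, Finset.sum_eq_sum_Ico_succ_bot hp]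
  have hω : ∀ k : ℕ, ‖Complex.exp (2 * Real.pi * Complex.I * k / p)‖ = 1 := by
    intro k
    have h1 : (2 * Real.pi * Complex.I * k / p : ℂ) =
        ((2 * Real.pi * k / p : ℝ) : ℂ) * Complex.I := by
      push_cast
      ring
    rw [h1, Complex.norm_exp_ofReal_mul_I]
  have hz : Complex.exp (2 * Real.pi * Complex.I * ((0 : ℕ) : ℂ) / p) = 1 := by simp
  rw [hz, one_mul]
  have hne : ∀ k ∈ Finset.Ico 1 p,
      Complex.exp (2 * Real.pi * Complex.I * k / p) * σ x - σ y ≠ 0 := by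
    have h1 : ∏ k ∈ Finset.Ico 1 p,
        ‖Complex.exp (2 * Real.pi * Complex.I * k / p) * σ x - σ y‖ ≠ 0 := by
      rw [geom_prod hp]
      have h2 := gs_ne α hp hinj h0 x hx y hy
      have h3 : σ (gs p x y) ≠ 0 := (map_ne_zero σ).2 h2
      unfold gs at h3
      simp only [map_sum, map_mul, map_pow] at h3
      exact norm_ne_zero_iff.2 h3
    intro k hk
    exact norm_ne_zero_iff.1 (Finset.prod_ne_zero_iff.1 h1 k hk)
  have hpair : ∀ k ∈ Finset.Ico 1 p,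
      kr (Complex.exp (2 * Real.pi * Complex.I * k / p) * (r x * rf (σ x))) (r y * rf (σ y)) ≤
        - Real.log ‖Complex.exp (2 * Real.pi * Complex.I * k / p) * σ x - σ y‖ +
          ((Real.posLog ‖σ x‖ + (1 - r x)) + (Real.posLog ‖σ y‖ + (1 - r y))) := by
    intro k hk
    have h1 := kr_le (sub_ne_zero.1 (hne k hk)) (hr0 x hx) (hr1 x hx) (hr0 y hy) (hr1 y hy)
    rw [rf_mul_root _ _ (hω k), norm_mul, hω k, one_mul] at h1
    have e1 : Complex.exp (2 * Real.pi * Complex.I * k / p) * (r x * rf (σ x)) =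
        r x * (Complex.exp (2 * Real.pi * Complex.I * k / p) * rf (σ x)) := by ring
    rw [e1]
    linarith
  have hlog : ∑ k ∈ Finset.Ico 1 p,
      Real.log ‖Complex.exp (2 * Real.pi * Complex.I * k / p) * σ x - σ y‖ =
      Real.log ‖σ (gs p x y)‖ := by
    rw [← Real.log_prod (fun k hk => norm_ne_zero_iff.2 (hne k hk)), geom_prod hp]
    unfold gs
    simp only [map_sum, map_mul, map_pow]
  have hU : 0 ≤ (Real.posLog ‖σ x‖ + (1 - r x)) + (Real.posLog ‖σ y‖ + (1 - r y)) := by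
    have h1 := hr1 x hx
    have h2 := hr1 y hy
    have h3 : 0 ≤ Real.posLog ‖σ x‖ := Real.posLog_nonneg
    have h4 : 0 ≤ Real.posLog ‖σ y‖ := Real.posLog_nonneg
    linarith
  have hsum := Finset.sum_le_sum hpair
  rw [Finset.sum_add_distrib, Finset.sum_neg_distrib, hlog, Finset.sum_const, Nat.card_Ico,
    nsmul_eq_mul] at hsum
  have hcast : ((p - 1 : ℕ) : ℝ) ≤ p := by exact_mod_cast Nat.sub_le p 1
  have hmul := mul_le_mul_of_nonneg_right hcast hU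
  simp only [zero_add]
  linarith

theorem self_le (σ : K →+* ℂ) (α : K) (hα : IsIntegral ℤ α) {p : ℕ} (hp : 0 < p)
    (hinj : ∀ x ∈ orb α, ∀ y ∈ orb α, x ^ p = y ^ p → x = y) (h0 : ∀ x ∈ orb α, x ≠ 0)
    (r : K → ℝ) (hr0 : ∀ x ∈ orb α, 0 ≤ r x) (hr1 : ∀ x ∈ orb α, r x ≤ 1)
    (hr : ∀ x ∈ orb α, ‖(r x : ℂ) * rf (σ x)‖ < 1) :
    ∑ x ∈ orb α, ∑ y ∈ orb α, kr ((r x * rf (σ x)) ^ p) ((r y * rf (σ y)) ^ p) ≤
      ∑ x ∈ orb α, ∑ y ∈ orb α, kr (r x * rf (σ x)) (r y * rf (σ y)) +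
        ((p : ℝ) + p) * ((orb α).card *
          ∑ x ∈ orb α, (Real.posLog ‖σ x‖ + (1 - r x))) := by
  have h1 := Finset.sum_le_sum fun x hx => Finset.sum_le_sum fun y hy =>
    self_pair σ α hp hinj h0 r hr0 hr1 hr x hx y hy
  refine h1.trans ?_
  simp only [Finset.sum_add_distrib]
  have h2 := gs_log σ α hα hp hinj h0
  have h3 := sum_pairs α (fun x y => Real.log ‖σ (gs p x y)‖)
    (fun x => Real.posLog ‖σ x‖ + (1 - r x)) p p
  simp only [Finset.sum_add_distrib] at h3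
  linarith

/-- block C, only the primes in `Q` have to be injective on the conjugates -/
theorem main_ineqQ (σ : K →+* ℂ) (α : K)
    (hα : IsIntegral ℤ α)
    (hne : ∀ p q : ℕ, 0 < p → 0 < q → p ≠ q → ∀ x ∈ orb α, ∀ y ∈ orb α, x ^ p ≠ y ^ q)
    (T : ℝ) (hT : 0 ≤ T) (Q : Finset ℕ) (hQ : ∀ p ∈ Q, p.Prime)
    (hinj : ∀ p ∈ Q, ∀ x ∈ orb α, ∀ y ∈ orb α, x ^ p = y ^ p → x = y) (r : K → ℝ)
    (hr0 : ∀ x ∈ orb α, 0 ≤ r x) (hr1 : ∀ x ∈ orb α, r x ≤ 1)
    (hr : ∀ x ∈ orb α, ‖(r x : ℂ) * rf (σ x)‖ < 1) :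
    2 * T * (orb α).card * ∑ p ∈ Q, Real.log p ≤
      (T ^ 2 + Q.card) * ∑ x ∈ orb α, ∑ y ∈ orb α, kr (r x * rf (σ x)) (r y * rf (σ y)) +
      4 * (T + Q.card) * (∑ p ∈ Q, (p : ℝ)) * (orb α).card *
        (∑ x ∈ orb α, Real.posLog ‖σ x‖ + ∑ x ∈ orb α, (1 - r x)) := by
  classical
  have h0 : ∀ x ∈ orb α, x ≠ 0 := by
    intro x hx hx0
    have := hne 1 2 one_pos two_pos (by norm_num) x hx x hx
    rw [hx0] at this
    exact this (by simp)
  set U : ℝ := ∑ x ∈ orb α, (Real.posLog ‖σ x‖ + (1 - r x)) with hUdef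
  have hU : ∑ x ∈ orb α, Real.posLog ‖σ x‖ + ∑ x ∈ orb α, (1 - r x) = U := by
    rw [hUdef, Finset.sum_add_distrib]
  have hU0 : 0 ≤ U := Finset.sum_nonneg fun x hx => by
    have h1 := hr1 x hx
    have h3 : 0 ≤ Real.posLog ‖σ x‖ := Real.posLog_nonneg
    linarith
  rw [hU]
  set d : ℝ := ((orb α).card : ℝ) with hddef
  have hd0 : 0 ≤ d := by rw [hddef]; exact Nat.cast_nonneg _
  have hdU : 0 ≤ d * U := mul_nonneg hd0 hU0
  let D : K → ℂ := fun x => (r x : ℂ) * rf (σ x)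
  let S : ℕ → ℕ → ℝ := fun p q => ∑ x ∈ orb α, ∑ y ∈ orb α, kr (D x ^ p) (D y ^ q)
  set E : ℝ := ∑ x ∈ orb α, ∑ y ∈ orb α, kr (r x * rf (σ x)) (r y * rf (σ y)) with hEdef
  have hS11 : S 1 1 = E := by simp [S, D, hEdef]
  -- the first order against a prime
  have hS1p : ∀ p ∈ Q, S 1 p ≤ - (d * Real.log p) + (1 + p) * (d * U) := by
    intro p hp
    have hpp := hQ p hp
    have h1 := cross_le σ α r hr0 hr1 1 p (hne 1 p one_pos hpp.pos hpp.one_lt.ne)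
    have h2 := log_res_prime σ α hα p hpp (fun x hx y hy => by
      have := hne p 1 hpp.pos one_pos hpp.one_lt.ne' x hx y hy
      rwa [pow_one] at this)
    have h3 : ∑ x ∈ orb α, ∑ y ∈ orb α, Real.log ‖σ x ^ 1 - σ y ^ p‖ =
        ∑ x ∈ orb α, ∑ y ∈ orb α, Real.log ‖σ x ^ p - σ y‖ := by
      rw [Finset.sum_comm]
      refine Finset.sum_congr rfl fun x _ => Finset.sum_congr rfl fun y _ => ?_
      rw [pow_one, norm_sub_rev]
    rw [h3, Nat.cast_one] at h1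
    exact h1.trans (by linarith)
  have hSp1 : ∀ p ∈ Q, S p 1 ≤ - (d * Real.log p) + (1 + p) * (d * U) := by
    intro p hp
    have hpp := hQ p hp
    have h1 := cross_le σ α r hr0 hr1 p 1 (hne p 1 hpp.pos one_pos hpp.one_lt.ne')
    have h2 := log_res_prime σ α hα p hpp (fun x hx y hy => by
      have := hne p 1 hpp.pos one_pos hpp.one_lt.ne' x hx y hy
      rwa [pow_one] at this)
    have h3 : ∑ x ∈ orb α, ∑ y ∈ orb α, Real.log ‖σ x ^ p - σ y ^ 1‖ =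
        ∑ x ∈ orb α, ∑ y ∈ orb α, Real.log ‖σ x ^ p - σ y‖ := by
      refine Finset.sum_congr rfl fun x _ => Finset.sum_congr rfl fun y _ => ?_
      rw [pow_one]
    rw [h3, Nat.cast_one] at h1
    exact h1.trans (by linarith)
  -- two primes
  have hSpq : ∀ p ∈ Q, ∀ q ∈ Q, S p q ≤ (if p = q then E else 0) + ((p : ℝ) + q) * (d * U) := by
    intro p hp q hq
    have hpp := hQ p hp
    have hqq := hQ q hq
    by_cases hpq : p = q
    · subst hpq
      rw [if_pos rfl]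
      exact self_le σ α hα hpp.pos (hinj p hp) h0 r hr0 hr1 hr
    · rw [if_neg hpq, zero_add]
      have h1 := cross_le σ α r hr0 hr1 p q (hne p q hpp.pos hqq.pos hpq)
      have h2 := log_res_nonneg σ α hα p q (hne p q hpp.pos hqq.pos hpq)
      exact h1.trans (by linarith)
  -- positivity
  let e : Option {p // p ∈ Q} → ℕ := fun i => i.elim 1 (fun p => (p : ℕ))
  let c : Option {p // p ∈ Q} → ℝ := fun i => i.elim T (fun _ => 1)
  have he : ∀ i, 0 < e i := by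
    rintro (_ | p)
    · exact one_pos
    · exact (hQ p p.2).pos
  have hpos := kr_posdef (ι := {x // x ∈ orb α} × Option {p // p ∈ Q}) (fun z => c z.2)
    (fun z => D z.1 ^ e z.2) (fun z => by
      rw [norm_pow]
      exact pow_lt_one₀ (norm_nonneg _) (hr z.1 z.1.2) (he z.2).ne')
  rw [sum_prod_swap] at hpos
  have hconv : ∀ i j : Option {p // p ∈ Q},
      ∑ x : {x // x ∈ orb α}, ∑ y : {x // x ∈ orb α},
        c i * c j * kr (D x ^ e i) (D y ^ e j) = c i * c j * S (e i) (e j) := by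
    intro i j
    rw [Finset.sum_coe_sort (orb α) (fun x => ∑ y : {x // x ∈ orb α},
      c i * c j * kr (D x ^ e i) (D y ^ e j)), Finset.mul_sum]
    refine Finset.sum_congr rfl fun x _ => ?_
    rw [Finset.sum_coe_sort (orb α) (fun y => c i * c j * kr (D x ^ e i) (D y ^ e j)),
      Finset.mul_sum]
  have hpos2 : 0 ≤ ∑ i : Option {p // p ∈ Q}, ∑ j : Option {p // p ∈ Q},
      c i * c j * S (e i) (e j) := by
    refine hpos.trans (le_of_eq ?_)
    exact Finset.sum_congr rfl fun i _ => Finset.sum_congr rfl fun j _ => hconv i j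
  have hexp : ∑ i : Option {p // p ∈ Q}, ∑ j : Option {p // p ∈ Q}, c i * c j * S (e i) (e j) =
      T * T * S 1 1 + ∑ p ∈ Q, T * S 1 p + ∑ p ∈ Q, T * S p 1 +
        ∑ p ∈ Q, ∑ q ∈ Q, S p q := by
    rw [Fintype.sum_option]
    simp only [Fintype.sum_option]
    rw [Finset.sum_add_distrib]
    have e1 : ∀ f : ℕ → ℝ, ∑ p : {p // p ∈ Q}, f p = ∑ p ∈ Q, f p := fun f =>
      Finset.sum_coe_sort Q f
    have t1 : c none = T := rfl
    have t2 : ∀ p : {p // p ∈ Q}, c (some p) = 1 := fun _ => rfl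
    have t3 : e none = 1 := rfl
    have t4 : ∀ p : {p // p ∈ Q}, e (some p) = p := fun _ => rfl
    simp only [t1, t2, t3, t4, mul_one, one_mul]
    rw [e1 (fun p => T * S 1 p), e1 (fun p => T * S p 1)]
    have e2 : ∑ p : {p // p ∈ Q}, ∑ q : {p // p ∈ Q}, S p q = ∑ p ∈ Q, ∑ q ∈ Q, S p q := by
      rw [← e1 (fun p => ∑ q ∈ Q, S p q)]
      exact Finset.sum_congr rfl fun p _ => e1 (fun q => S p q)
    rw [e2]
    ring
  rw [hexp, hS11] at hpos2
  have b1 : ∑ p ∈ Q, T * S 1 p ≤ ∑ p ∈ Q, T * (- (d * Real.log p) + (1 + p) * (d * U)) :=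
    Finset.sum_le_sum fun p hp => mul_le_mul_of_nonneg_left (hS1p p hp) hT
  have b2 : ∑ p ∈ Q, T * S p 1 ≤ ∑ p ∈ Q, T * (- (d * Real.log p) + (1 + p) * (d * U)) :=
    Finset.sum_le_sum fun p hp => mul_le_mul_of_nonneg_left (hSp1 p hp) hT
  have b3 : ∑ p ∈ Q, ∑ q ∈ Q, S p q ≤
      ∑ p ∈ Q, ∑ q ∈ Q, ((if p = q then E else 0) + ((p : ℝ) + q) * (d * U)) :=
    Finset.sum_le_sum fun p hp => Finset.sum_le_sum fun q hq => hSpq p hp q hq
  set P : ℝ := ∑ p ∈ Q, (p : ℝ) with hPdef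
  set s : ℝ := (Q.card : ℝ) with hsdef
  set Lg : ℝ := ∑ p ∈ Q, Real.log p with hLdef
  have hs0 : 0 ≤ s := by rw [hsdef]; exact Nat.cast_nonneg _
  have hsP : s ≤ P := by
    rw [hsdef, hPdef, Finset.card_eq_sum_ones]
    push_cast
    exact Finset.sum_le_sum fun p hp => by exact_mod_cast (hQ p hp).one_lt.le
  have c1 : ∑ p ∈ Q, T * (- (d * Real.log p) + (1 + p) * (d * U)) =
      T * (- (d * Lg) + (s + P) * (d * U)) := by
    rw [← Finset.mul_sum, Finset.sum_add_distrib, Finset.sum_neg_distrib, ← Finset.mul_sum,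
      ← Finset.sum_mul, Finset.sum_add_distrib, Finset.sum_const, nsmul_eq_mul, mul_one]
  have c3 : ∑ p ∈ Q, ∑ q ∈ Q, ((if p = q then E else 0) + ((p : ℝ) + q) * (d * U)) =
      s * E + 2 * s * P * (d * U) := by
    have e1 : ∀ p ∈ Q, ∑ q ∈ Q, ((if p = q then E else 0) + ((p : ℝ) + q) * (d * U)) =
        E + (s * p + P) * (d * U) := by
      intro p hp
      rw [Finset.sum_add_distrib, Finset.sum_ite_eq, if_pos hp, ← Finset.sum_mul,
        Finset.sum_add_distrib, Finset.sum_const, nsmul_eq_mul]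
    rw [Finset.sum_congr rfl e1, Finset.sum_add_distrib, Finset.sum_const, nsmul_eq_mul,
      ← Finset.sum_mul, Finset.sum_add_distrib, ← Finset.mul_sum, Finset.sum_const, nsmul_eq_mul]
    ring
  rw [c1] at b1 b2
  rw [c3] at b3
  have f1 : 0 ≤ T * (P - s) * (d * U) :=
    mul_nonneg (mul_nonneg hT (sub_nonneg.2 hsP)) hdU
  have f2 : 0 ≤ s * P * (d * U) := mul_nonneg (mul_nonneg hs0 (hs0.trans hsP)) hdU
  nlinarith [hpos2, b1, b2, b3, f1, f2]

/-- block C -/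
theorem main_ineq (σ : K →+* ℂ) (α : K)
    (hα : IsIntegral ℤ α)
    (hinj : ∀ p : ℕ, p.Prime → ∀ x ∈ orb α, ∀ y ∈ orb α, x ^ p = y ^ p → x = y)
    (hne : ∀ p q : ℕ, 0 < p → 0 < q → p ≠ q → ∀ x ∈ orb α, ∀ y ∈ orb α, x ^ p ≠ y ^ q)
    (T : ℝ) (hT : 0 ≤ T) (Q : Finset ℕ) (hQ : ∀ p ∈ Q, p.Prime) (r : K → ℝ)
    (hr0 : ∀ x ∈ orb α, 0 ≤ r x) (hr1 : ∀ x ∈ orb α, r x ≤ 1)
    (hr : ∀ x ∈ orb α, ‖(r x : ℂ) * rf (σ x)‖ < 1) :
    2 * T * (orb α).card * ∑ p ∈ Q, Real.log p ≤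
      (T ^ 2 + Q.card) * ∑ x ∈ orb α, ∑ y ∈ orb α, kr (r x * rf (σ x)) (r y * rf (σ y)) +
      4 * (T + Q.card) * (∑ p ∈ Q, (p : ℝ)) * (orb α).card *
        (∑ x ∈ orb α, Real.posLog ‖σ x‖ + ∑ x ∈ orb α, (1 - r x)) :=
  main_ineqQ σ α hα hne T hT Q hQ (fun p hp => hinj p (hQ p hp)) r hr0 hr1 hr

end H82.LB
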